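import Pool.Agent.Helper97.SPN.Stmts2

/-!
LFS (MP_005e41): no automorphism maps a spin factor to a classical one.   [helper18]
-/

set_option autoImplicit false

namespace Pool.Agent.Helper97.SPN

theorem st_LFS : ST_LFS := by
  intro k _ ι _ _ G S _ _ φ hφ Q _ π σ p τ hcen i hinj x y z hxy hz
  obtain ⟨a, ha⟩ := hφ i (τ i (φ (p i) x))
  obtain ⟨b, hb⟩ := hφ i (τ i (φ (p i) y))
  have hab : a * b = b * a := by
    apply hinj
    rw [map_mul, map_mul, ha, hb, ← map_mul, ← map_mul, ← map_mul, ← map_mul, hxy, map_mul,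
      MonoidHom.mem_ker.1 hz, one_mul]
  have key : ∀ (u : S (p i)) (c : S i), φ i c = τ i (φ (p i) u) →
      σ (π (Pi.mulSingle (p i) u)) * (π (Pi.mulSingle i c))⁻¹ ∈ Subgroup.center Q := by
    intro u c hc
    refine hcen _ _ fun j => ?_
    by_cases hj : j = i
    · subst hj
      rw [Pi.mulSingle_eq_same, Pi.mulSingle_eq_same, hc]
    · rw [Pi.mulSingle_eq_of_ne hj, Pi.mulSingle_eq_of_ne (fun h => hj (p.injective h)), map_one,
        map_one, map_one]
  have h1 := key x a ha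
  have h2 := key y b hb
  rw [Subgroup.mem_center_iff] at h1 h2
  have hst : π (Pi.mulSingle i a) * π (Pi.mulSingle i b) =
      π (Pi.mulSingle i b) * π (Pi.mulSingle i a) := by
    rw [← map_mul, ← map_mul, ← Pi.mulSingle_mul, ← Pi.mulSingle_mul, hab]
  have hcomm : σ (π (Pi.mulSingle (p i) x)) * σ (π (Pi.mulSingle (p i) y)) =
      σ (π (Pi.mulSingle (p i) y)) * σ (π (Pi.mulSingle (p i) x)) := by
    obtain ⟨c, hc⟩ : ∃ c, c = σ (π (Pi.mulSingle (p i) x)) * (π (Pi.mulSingle i a))⁻¹ := ⟨_, rfl⟩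
    obtain ⟨c', hc'⟩ : ∃ c', c' = σ (π (Pi.mulSingle (p i) y)) * (π (Pi.mulSingle i b))⁻¹ :=
      ⟨_, rfl⟩
    rw [← hc] at h1
    rw [← hc'] at h2
    have e1 : σ (π (Pi.mulSingle (p i) x)) = c * π (Pi.mulSingle i a) := by
      rw [hc, inv_mul_cancel_right]
    have e2 : σ (π (Pi.mulSingle (p i) y)) = c' * π (Pi.mulSingle i b) := by
      rw [hc', inv_mul_cancel_right]
    rw [e1, e2]
    calc c * π (Pi.mulSingle i a) * (c' * π (Pi.mulSingle i b))
        = c * (π (Pi.mulSingle i a) * c') * π (Pi.mulSingle i b) := by group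
      _ = c * (c' * π (Pi.mulSingle i a)) * π (Pi.mulSingle i b) := by rw [h2]
      _ = c * c' * (π (Pi.mulSingle i a) * π (Pi.mulSingle i b)) := by group
      _ = c' * c * (π (Pi.mulSingle i b) * π (Pi.mulSingle i a)) := by rw [hst, h1 c']
      _ = c' * (c * π (Pi.mulSingle i b)) * π (Pi.mulSingle i a) := by group
      _ = c' * (π (Pi.mulSingle i b) * c) * π (Pi.mulSingle i a) := by rw [h1]
      _ = c' * π (Pi.mulSingle i b) * (c * π (Pi.mulSingle i a)) := by group
  rw [← map_mul, ← map_mul, ← map_mul, ← map_mul] at hcomm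
  have h3 := σ.injective hcomm
  rw [← Pi.mulSingle_mul, ← Pi.mulSingle_mul, hxy, Pi.mulSingle_mul, map_mul] at h3
  rw [MonoidHom.mem_ker]
  exact mul_eq_right.1 h3

end Pool.Agent.Helper97.SPN
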